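import Mathlib
import Pool.Agent.X298.II.Main

/-!
# The Ichino–Ikeda conjecture: one convergent sum over the Satake parameters at the good places

Let `τ`, `σ` be tempered cuspidal representations of `SO(n)`, `SO(n + 1)` over the number field `F`, `S` a finite set of places which
contains the archimedean places and those where something is ramified, and `a_v`, `b_v` (`v ∉ S`) the Satake parameters, with
eigenvalues of absolute value `1` in the standard representations of the dual groups; `A_v(k) = tr a_v^k`, `B_v(k) = tr b_v^k`. Since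
`P_v(φ_v, f_v) = 1` for `v ∉ S`, the formula of Ichino and Ikeda is `𝒫(φ, f) = D 𝓛^S`, with

  `D = 2^{-β} Δ^S ∏_{v ∈ S} P_v^♮(φ_v, f_v)`,  `𝓛^S = L^S(1/2, τ × σ) / (L^S(1, τ, Ad) L^S(1, σ, Ad))`.

For `γ > π / 2` and `T > 0` let

  `X(T) = ∑_{v ∉ S} ∑_{k ≥ 1} [A_v(k) B_v(k) q_v^{-k/2} - Ad_v(k) q_v^{-k}] e^{iγu} / (k Γ(1 + u))`,  `u = k log q_v / T`,

  `Ad_v(k) = (A_v(k)² - (-1)^n A_v(2k)) / 2 + (B_v(k)² + (-1)^n B_v(2k)) / 2`.

The sum converges absolutely. Suppose that the three partial `L`-functions have continuations: `L^S(s, τ × σ)` meromorphic on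
`[1/2, 1]` and holomorphic at `1/2`, the adjoint ones holomorphic and nonzero at `1`. Then

* `exp X(T) = 𝓛^S + O(1/T)` for `T → ∞`, without any hypothesis on zeros;
* **the formula of Ichino and Ikeda for `(φ, f)` holds if and only if `D exp X(T) → 𝒫(φ, f)`**, and then with an error `O(1/T)`;
* `L^S(1/2, τ × σ) ≠ 0` if and only if `Re X(T)` is bounded from below, if and only if it does not tend to `- ∞`; so for `D ≠ 0` the
  formula implies that the period is nonzero if and only if `Re X(T)` is bounded from below.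
-/

set_option autoImplicit false

open Filter Topology
open IsDedekindDomain NumberField

namespace Pool.Agent.Results.MP_f4c338_nt.PeriodsFromSatakeParameters

open Pool.Agent.X298.ST Pool.Agent.X298.II

/-- **The Ichino–Ikeda formula through one convergent sum over the good places.** -/
theorem result {F : Type} [Field F] [NumberField F] (S : Set (HeightOneSpectrum (𝓞 F))) (n : ℕ) (π : Satake S n)
    {Λ M₁ M₂ : ℂ → ℂ} (h : Continued π Λ M₁ M₂) {γ : ℝ} (hγ : Real.pi / 2 < γ) :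
    (∀ T : ℝ, 0 < T → Summable fun x => ‖xTerm π γ T x‖) ∧
    (fun T : ℝ => Complex.exp (xSum π γ T) - Λ (1 / 2) / (M₁ 1 * M₂ 1)) =O[atTop] (fun T : ℝ => 1 / T) ∧
    (∀ p D : ℂ, (p = D * (Λ (1 / 2) / (M₁ 1 * M₂ 1)) ↔
        Tendsto (fun T : ℝ => D * Complex.exp (xSum π γ T)) atTop (𝓝 p)) ∧
      (p = D * (Λ (1 / 2) / (M₁ 1 * M₂ 1)) ↔
        (fun T : ℝ => D * Complex.exp (xSum π γ T) - p) =O[atTop] (fun T : ℝ => 1 / T)) ∧
      (D ≠ 0 → p = D * (Λ (1 / 2) / (M₁ 1 * M₂ 1)) →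
        (p ≠ 0 ↔ ∃ C : ℝ, ∀ᶠ T : ℝ in atTop, C ≤ (xSum π γ T).re))) ∧
    (Λ (1 / 2) ≠ 0 ↔ ∃ C : ℝ, ∀ᶠ T : ℝ in atTop, C ≤ (xSum π γ T).re) ∧
    (Λ (1 / 2) ≠ 0 ↔ ∃ C : ℝ, ∃ᶠ T : ℝ in atTop, C ≤ (xSum π γ T).re) := by
  obtain ⟨h1, h2, h3⟩ := main h hγ
  have h0 : Tendsto (fun T : ℝ => 1 / T) atTop (𝓝 0) := tendsto_const_nhds.div_atTop tendsto_id
  refine ⟨fun T hT => xTerm_summable π γ hT, h1, fun p D => ?_, h3, h2⟩
  set ℓ : ℂ := Λ (1 / 2) / (M₁ 1 * M₂ 1) with hℓ
  have hO : (fun T : ℝ => D * Complex.exp (xSum π γ T) - D * ℓ) =O[atTop] (fun T : ℝ => 1 / T) :=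
    (h1.const_mul_left D).congr_left fun T => by ring
  have hlim : Tendsto (fun T : ℝ => D * Complex.exp (xSum π γ T)) atTop (𝓝 (D * ℓ)) := by
    have h4 := (hO.trans_tendsto h0).add_const (D * ℓ)
    rw [zero_add] at h4
    exact h4.congr fun T => by ring
  have hback : Tendsto (fun T : ℝ => D * Complex.exp (xSum π γ T)) atTop (𝓝 p) → p = D * ℓ :=
    fun h4 => tendsto_nhds_unique h4 hlim
  refine ⟨⟨fun h4 => by rw [h4]; exact hlim, hback⟩, ⟨fun h4 => by rw [h4]; exact hO, fun h4 => hback ?_⟩, ?_⟩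
  · have h5 := (h4.trans_tendsto h0).add_const p
    rw [zero_add] at h5
    exact h5.congr fun T => by ring
  · intro hD hp
    rw [← h3, hp]
    have hne : M₁ 1 * M₂ 1 ≠ 0 := mul_ne_zero h.ne₁ h.ne₂
    constructor
    · intro h4 h5
      apply h4
      rw [hℓ, h5, zero_div, mul_zero]
    · intro h4
      exact mul_ne_zero hD (div_ne_zero h4 hne)

end Pool.Agent.Results.MP_f4c338_nt.PeriodsFromSatakeParameters
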